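import Pool.Agent.Helper21.CU.St2

/-!
Module PS2 of project CU (MP_ad0dc2_nt): fibre over the sum and over the residue.
-/

set_option autoImplicit false

open Finset

namespace Pool.Agent.Helper52.CU

open Pool.Agent.Helper21.CU

open scoped Classical in
theorem hPS2 (one : StONE) (sum : StSUM) : StPS2 := by
  intro k A hk
  have hk0 : k ≠ 0 := by
    rintro rfl
    exact hk 0 (by norm_num)
  obtain ⟨C1, hC1, h1⟩ := one k A hk0
  obtain ⟨C2, hC2, h2⟩ := sum k hk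
  refine ⟨C1 * C2, by positivity, ?_⟩
  intro Z S hZ hS
  set T := (((Icc (1 : ℤ) S) ×ˢ (Icc (-(Z : ℤ)) Z)).filter
    (fun i : ℤ × ℤ => i.1 ∣ i.2 ^ 3 - k ∧ IsSquare (D k i.1 i.2))) with hT
  let G : ℕ → ℕ → Finset ℤ := fun s v =>
    (Icc (-(Z : ℤ)) Z).filter (fun z : ℤ => z % (s : ℤ) = v ∧ IsSquare (D k s z))
  have hsub : T ⊆ (Icc 1 S).biUnion (fun s : ℕ => (R k s).biUnion (fun v : ℕ =>
      (G s v).image (fun z : ℤ => ((s : ℤ), z)))) := by
    intro i hi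
    rw [hT, mem_filter, mem_product, mem_Icc] at hi
    obtain ⟨⟨⟨hs1, hs2⟩, hz⟩, hd, hsq⟩ := hi
    have e1 : ((i.1.toNat : ℕ) : ℤ) = i.1 := Int.toNat_of_nonneg (by omega)
    have hmod0 : 0 ≤ i.2 % i.1 := Int.emod_nonneg _ (by omega)
    have hmod1 : i.2 % i.1 < i.1 := Int.emod_lt_of_pos _ (by omega)
    have e2 : (((i.2 % i.1).toNat : ℕ) : ℤ) = i.2 % i.1 := Int.toNat_of_nonneg hmod0
    rw [mem_biUnion]
    refine ⟨i.1.toNat, ?_, ?_⟩
    · rw [mem_Icc]
      omega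
    rw [mem_biUnion]
    refine ⟨(i.2 % i.1).toNat, ?_, ?_⟩
    · unfold R
      rw [mem_filter, mem_range, e1, e2]
      refine ⟨by omega, ?_⟩
      have g1 : i.2 % i.1 ≡ i.2 [ZMOD i.1] := Int.mod_modEq i.2 i.1
      have g3 : (i.2 % i.1) ^ 3 - k ≡ i.2 ^ 3 - k [ZMOD i.1] := (g1.pow 3).sub_right k
      exact g3.dvd_iff.mpr hd
    · rw [mem_image]
      refine ⟨i.2, ?_, ?_⟩
      · simp only [G]
        rw [mem_filter, e1, e2]
        exact ⟨hz, rfl, hsq⟩
      · rw [e1]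
  have hcard : T.card ≤ ∑ s ∈ Icc 1 S, ∑ v ∈ R k s, (G s v).card := by
    refine (card_le_card hsub).trans ?_
    refine card_biUnion_le.trans ?_
    apply Finset.sum_le_sum
    intro s _
    refine card_biUnion_le.trans ?_
    apply Finset.sum_le_sum
    intro v _
    exact card_image_le
  have hlog : 0 ≤ Real.log Z := Real.log_nonneg (by
    have : (1 : ℕ) ≤ Z := by omega
    exact_mod_cast this)
  have hterm : ∀ s ∈ Icc 1 S, ((∑ v ∈ R k s, (G s v).card : ℕ) : ℝ) ≤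
      C1 * √(Z : ℝ) * Real.log Z * (((R k s).card : ℝ) / √(s : ℝ)) := by
    intro s hs
    rw [mem_Icc] at hs
    push_cast
    have : ∀ v ∈ R k s, ((G s v).card : ℝ) ≤ C1 * √((Z : ℝ) / s) * Real.log Z := by
      intro v hv
      unfold R at hv
      rw [mem_filter, mem_range] at hv
      exact h1 Z s v hZ hs.1 (hs.2.trans hS) hv.1
    refine (Finset.sum_le_sum this).trans (le_of_eq ?_)
    rw [Finset.sum_const, nsmul_eq_mul, Real.sqrt_div (Nat.cast_nonneg Z)]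
    ring
  have hc : (T.card : ℝ) ≤ ((∑ s ∈ Icc 1 S, ∑ v ∈ R k s, (G s v).card : ℕ) : ℝ) := by
    exact_mod_cast hcard
  refine hc.trans ?_
  rw [Nat.cast_sum]
  refine (Finset.sum_le_sum hterm).trans ?_
  rw [← Finset.mul_sum]
  have hS2 := h2 S
  have hpos : 0 ≤ C1 * √(Z : ℝ) * Real.log Z := by positivity
  refine (mul_le_mul_of_nonneg_left hS2 hpos).trans (le_of_eq ?_)
  rw [Real.sqrt_mul (Nat.cast_nonneg S)]
  ring

end Pool.Agent.Helper52.CU
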